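import Pool.Agent.helper67.TPE.Spec

set_option autoImplicit false

/-!
Row tpe:CRG of the project tpe (MP_ebc808_nt): the data exist.
-/

open Finset Pool.Agent.EP Pool.Agent.PQ

noncomputable section

namespace Pool.Agent.TPE

theorem CRG_solve (A m x : ℕ) (hm : 0 < m) (h : Nat.Coprime A m) : ∃ c : ℕ, A * c ≡ x [MOD m] := by
  have : NeZero m := ⟨by omega⟩
  refine ⟨((x : ZMod m) * (A : ZMod m)⁻¹).val, ?_⟩
  rw [← ZMod.natCast_eq_natCast_iff]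
  push_cast
  rw [ZMod.natCast_zmod_val, mul_comm (x : ZMod m), ← mul_assoc, ZMod.coe_mul_inv_eq_one A h, one_mul]

theorem CRG_class (L U V A x : ℕ) (hL : 0 < L) (hU : 0 < U) (hLU : L.Coprime U)
    (hLV : L.Coprime V) (hUV : U.Coprime V) (hAL : A.Coprime L) (hAU : A.Coprime U)
    (hx : x.Coprime L) : ∃ c : ℕ, A * c ≡ x [MOD L] ∧ U ∣ A * c + 1 ∧ c.Coprime (L * U * V) := by
  obtain ⟨c1, h1⟩ := CRG_solve A L x hL hAL
  obtain ⟨c2, h2⟩ := CRG_solve A U (U - 1) hU hAU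
  obtain ⟨r, hr1, hr2⟩ := Nat.chineseRemainder hLU c1 c2
  obtain ⟨c, hc1, hc2⟩ := Nat.chineseRemainder (Nat.Coprime.mul_left hLV hUV) r 1
  have e1 : A * c ≡ x [MOD L] :=
    (Nat.ModEq.mul_left A ((hc1.of_dvd (Dvd.intro _ rfl)).trans hr1)).trans h1
  have e2 : A * c ≡ U - 1 [MOD U] :=
    (Nat.ModEq.mul_left A ((hc1.of_dvd (Dvd.intro_left _ rfl)).trans hr2)).trans h2
  have e3 : U ∣ A * c + 1 := by
    have h3 : A * c + 1 ≡ (U - 1) + 1 [MOD U] := Nat.ModEq.add_right 1 e2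
    have h4 : (U - 1) + 1 = U := by omega
    rw [h4] at h3
    exact (Nat.modEq_zero_iff_dvd).1 (h3.trans ((Nat.modEq_zero_iff_dvd).2 (dvd_refl U)))
  refine ⟨c, e1, e3, ?_⟩
  have k1 : c.Coprime L := by
    have h3 : (A * c).Coprime L := by
      have := e1.gcd_eq
      rw [Nat.Coprime, this]
      exact hx
    exact Nat.Coprime.coprime_mul_left h3
  have k2 : c.Coprime U := by
    rw [Nat.coprime_iff_gcd_eq_one]
    have h3 : Nat.gcd c U ∣ A * c + 1 := (Nat.gcd_dvd_right c U).trans e3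
    have h4 : Nat.gcd c U ∣ A * c := Dvd.dvd.mul_left (Nat.gcd_dvd_left c U) A
    exact Nat.dvd_one.1 ((Nat.dvd_add_right h4).1 h3)
  have k3 : c.Coprime V := by
    have := hc2.gcd_eq
    rw [Nat.Coprime, this]
    simp
  exact Nat.Coprime.mul_right (Nat.Coprime.mul_right k1 k2) k3

/-- the primes -/
theorem CRG_inf : {p : ℕ | p.Prime ∧ p % 24 = 7}.Infinite := by
  rw [Set.infinite_iff_exists_gt]
  intro n
  have hu : IsUnit ((7 : ℕ) : ZMod 24) := by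
    rw [ZMod.isUnit_iff_coprime]; decide
  obtain ⟨p, hp1, hp2, hp3⟩ := Nat.forall_exists_prime_gt_and_eq_mod hu n
  refine ⟨p, ⟨hp2, ?_⟩, hp1⟩
  have h1 := (ZMod.natCast_eq_natCast_iff p 7 24).1 hp3
  have h2 : p % 24 = 7 % 24 := h1
  omega

theorem CRG_enum : ∃ q : ℕ → ℕ, Function.Injective q ∧ ∀ n, (q n).Prime ∧ q n % 24 = 7 := by
  let f := CRG_inf.natEmbedding
  refine ⟨fun n => ((f n : {p : ℕ | p.Prime ∧ p % 24 = 7}) : ℕ), ?_, fun n => (f n).2⟩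
  intro m n h
  exact f.injective (Subtype.ext h)

theorem CRG_prod (s : Finset ℕ) (h : ∀ q ∈ s, q % 24 = 7) :
    (∏ q ∈ s, q) % 24 = 7 ^ s.card % 24 := by
  classical
  induction s using Finset.induction_on with
  | empty => simp
  | insert q s hq ih =>
    rw [Finset.prod_insert hq, Finset.card_insert_of_notMem hq, Nat.mul_mod,
      ih (fun r hr => h r (Finset.mem_insert_of_mem hr)), h q (Finset.mem_insert_self q s), pow_succ,
      Nat.mul_mod (7 ^ s.card) 7, mul_comm]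

theorem CRG_even (x : ℕ) : 7 ^ (2 * x) % 24 = 1 := by
  rw [pow_mul, Nat.pow_mod]
  norm_num

theorem CRG_odd (x : ℕ) : 7 ^ (2 * x + 1) % 24 = 7 := by
  rw [pow_succ, Nat.mul_mod, CRG_even]

/-- **CRG** -/
theorem CRG : CRG_stmt := by
  classical
  intro i a g
  obtain ⟨q, hqinj, hqp⟩ := CRG_enum
  obtain ⟨κ, hκ⟩ : ∃ κ, κ = i + g + 3 := ⟨_, rfl⟩
  obtain ⟨T, hT⟩ : ∃ T, T = 2 ^ (κ - 1) - 1 := ⟨_, rfl⟩
  obtain ⟨K, hK⟩ : ∃ K, K = 2 ^ κ := ⟨_, rfl⟩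
  have hT1 : 2 ^ κ = 2 * 2 ^ (κ - 1) := by
    obtain ⟨c, rfl⟩ : ∃ c, κ = c + 1 := ⟨κ - 1, by omega⟩
    rw [Nat.add_sub_cancel]
    ring
  have hT2 : 1 ≤ 2 ^ (κ - 1) := Nat.one_le_two_pow
  have htk : 2 * T + 2 = 2 ^ κ := by omega
  have hgT : 2 * g < T := by
    have h1 : κ - 1 = g + (i + 2) := by omega
    have h2 : g < 2 ^ g := Nat.lt_two_pow_self
    have h3 : 2 ^ 2 ≤ 2 ^ (i + 2) := Nat.pow_le_pow_right (by norm_num) (by omega)
    have h4 : (g + 1) * 2 ^ 2 ≤ 2 ^ g * 2 ^ (i + 2) := Nat.mul_le_mul (by omega) h3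
    have h5 : 2 ^ (κ - 1) = 2 ^ g * 2 ^ (i + 2) := by rw [h1, pow_add]
    omega
  obtain ⟨b, hb⟩ : ∃ b, b = 2 * κ + 1 := ⟨_, rfl⟩
  obtain ⟨L, hLdef⟩ : ∃ L, L = 2 ^ b * 3 := ⟨_, rfl⟩
  have hL0 : 0 < L := by
    rw [hLdef]
    positivity
  obtain ⟨sA, hsA⟩ : ∃ s : ℕ → Finset ℕ, s = fun x => (range (2 * x)).image q := ⟨_, rfl⟩
  obtain ⟨sC, hsC⟩ : ∃ s : ℕ → Finset ℕ, s = fun y => (Ico K (K + (2 ^ κ - 3 - 2 * y))).image q :=
    ⟨_, rfl⟩
  obtain ⟨U, hU⟩ : ∃ U : Finset ℕ, U = (range K).image q := ⟨_, rfl⟩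
  obtain ⟨V, hV⟩ : ∃ V : Finset ℕ, V = (Ico K (2 * K)).image q := ⟨_, rfl⟩
  have hAp : ∀ x, ∀ p ∈ sA x, p.Prime ∧ p % 24 = 7 := by
    intro x p hp
    rw [hsA] at hp
    obtain ⟨n, -, rfl⟩ := Finset.mem_image.1 hp
    exact hqp n
  have hCp : ∀ y, ∀ p ∈ sC y, p.Prime ∧ p % 24 = 7 := by
    intro x p hp
    rw [hsC] at hp
    obtain ⟨n, -, rfl⟩ := Finset.mem_image.1 hp
    exact hqp n
  have hUp : ∀ p ∈ U, p.Prime ∧ p % 24 = 7 := by
    intro p hp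
    rw [hU] at hp
    obtain ⟨n, -, rfl⟩ := Finset.mem_image.1 hp
    exact hqp n
  have hVp : ∀ p ∈ V, p.Prime ∧ p % 24 = 7 := by
    intro p hp
    rw [hV] at hp
    obtain ⟨n, -, rfl⟩ := Finset.mem_image.1 hp
    exact hqp n
  have hAc : ∀ x, #(sA x) = 2 * x := by
    intro x
    rw [hsA]
    show #((range (2 * x)).image q) = 2 * x
    rw [Finset.card_image_of_injective _ hqinj, card_range]
  have hCc : ∀ y < T, #(sC y) + 2 * y + 3 = 2 ^ κ := by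
    intro y hy
    rw [hsC]
    show #((Ico K (K + (2 ^ κ - 3 - 2 * y))).image q) + 2 * y + 3 = 2 ^ κ
    rw [Finset.card_image_of_injective _ hqinj, Nat.card_Ico]
    omega
  have hAU : ∀ x < T, sA x ⊆ U := by
    intro x hx
    rw [hsA, hU]
    refine Finset.image_subset_image fun n hn => ?_
    simp only [Finset.mem_range] at hn ⊢
    omega
  have hCV : ∀ y < T, sC y ⊆ V := by
    intro y hy
    rw [hsC, hV]
    refine Finset.image_subset_image fun n hn => ?_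
    simp only [Finset.mem_Ico] at hn ⊢
    omega
  have hUV : ∀ p ∈ U, ∀ r ∈ V, p ≠ r := by
    intro p hp r hr
    rw [hU] at hp
    rw [hV] at hr
    obtain ⟨n, hn, rfl⟩ := Finset.mem_image.1 hp
    obtain ⟨l, hl, rfl⟩ := Finset.mem_image.1 hr
    intro h
    have h1 := hqinj h
    simp only [Finset.mem_range] at hn
    simp only [Finset.mem_Ico] at hl
    omega
  obtain ⟨QU, hQU⟩ : ∃ Q, Q = ∏ q ∈ U, q := ⟨_, rfl⟩
  obtain ⟨QV, hQV⟩ : ∃ Q, Q = ∏ q ∈ V, q := ⟨_, rfl⟩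
  have hqL : ∀ p : ℕ, p.Prime → p % 24 = 7 → Nat.Coprime p L := by
    intro p hp h7
    rw [hLdef]
    refine Nat.Coprime.mul_right (Nat.Coprime.pow_right _ ?_) ?_
    · rw [Nat.coprime_primes hp Nat.prime_two]
      omega
    · rw [Nat.coprime_primes hp Nat.prime_three]
      omega
  have hUL : Nat.Coprime QU L := by
    rw [hQU]; exact Nat.Coprime.prod_left fun p hp => hqL p (hUp p hp).1 (hUp p hp).2
  have hVL : Nat.Coprime QV L := by
    rw [hQV]; exact Nat.Coprime.prod_left fun p hp => hqL p (hVp p hp).1 (hVp p hp).2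
  have hQUV : Nat.Coprime QU QV := by
    rw [hQU, hQV]
    exact Nat.Coprime.prod_left fun p hp => Nat.Coprime.prod_right fun r hr =>
      (Nat.coprime_primes (hUp p hp).1 (hVp r hr).1).2 (hUV p hp r hr)
  have hQU0 : 0 < QU := by
    rw [hQU]; exact Finset.prod_pos fun p hp => (hUp p hp).1.pos
  have hQV0 : 0 < QV := by
    rw [hQV]; exact Finset.prod_pos fun p hp => (hVp p hp).1.pos
  have hAQ : ∀ x < T, (∏ q ∈ sA x, q) ∣ QU := by
    intro x hx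
    rw [hQU]
    exact Finset.prod_dvd_prod_of_subset _ _ _ (hAU x hx)
  have hCQ : ∀ y < T, (∏ q ∈ sC y, q) ∣ QV := by
    intro y hy
    rw [hQV]
    exact Finset.prod_dvd_prod_of_subset _ _ _ (hCV y hy)
  -- the classes modulo L
  have hcT : Nat.Coprime (2 ^ b) 3 := Nat.Coprime.pow_left _ (by norm_num)
  have h2e : 0 < 2 ^ b := by positivity
  obtain ⟨k₀, hk1, hk2⟩ := Nat.chineseRemainder hcT (2 ^ b - 1) 1
  obtain ⟨M₀, hM1, hM2⟩ := Nat.chineseRemainder hcT (1 + 24 * a * (2 ^ b - 1)) 1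
  have hk3 : 2 ^ b ∣ k₀ + 1 := by
    have h3 : k₀ + 1 ≡ (2 ^ b - 1) + 1 [MOD 2 ^ b] := Nat.ModEq.add_right 1 hk1
    have h4 : (2 ^ b - 1) + 1 = 2 ^ b := by omega
    rw [h4] at h3
    exact (Nat.modEq_zero_iff_dvd).1 (h3.trans ((Nat.modEq_zero_iff_dvd).2 (dvd_refl _)))
  have hM3 : M₀ + 24 * a ≡ 1 [MOD 2 ^ b] := by
    have h3 : M₀ + 24 * a ≡ 1 + 24 * a * (2 ^ b - 1) + 24 * a [MOD 2 ^ b] :=
      Nat.ModEq.add_right _ hM1
    have h4 : 1 + 24 * a * (2 ^ b - 1) + 24 * a = 1 + 24 * a * 2 ^ b := by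
      obtain ⟨z, hz⟩ : ∃ z, 2 ^ b = z + 1 := ⟨2 ^ b - 1, by omega⟩
      rw [hz, Nat.add_sub_cancel]
      ring
    rw [h4] at h3
    refine h3.trans ?_
    have h5 : 1 + 24 * a * 2 ^ b ≡ 1 + 0 [MOD 2 ^ b] :=
      Nat.ModEq.add_left 1 ((Nat.modEq_zero_iff_dvd).2 (Dvd.intro_left _ rfl))
    simpa only [add_zero] using h5
  have h8e : 8 ∣ 2 ^ b := by
    have : (8 : ℕ) = 2 ^ 3 := by norm_num
    rw [this]
    exact pow_dvd_pow 2 (by omega)
  have hk24 : k₀ % 24 = 7 := by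
    have h1 : 8 ∣ k₀ + 1 := h8e.trans hk3
    have h2 : k₀ % 3 = 1 := hk2
    omega
  have hM24 : M₀ % 24 = 1 := by
    have h1 : M₀ + 24 * a ≡ 1 [MOD 8] := hM3.of_dvd h8e
    have h1' : (M₀ + 24 * a) % 8 = 1 := h1
    have h2 : M₀ % 3 = 1 := hM2
    omega
  have hcopL : ∀ k : ℕ, k % 2 = 1 → k % 3 = 1 → k.Coprime L := by
    intro k h1 h2
    rw [hLdef]
    refine Nat.Coprime.mul_right (Nat.Coprime.pow_right _ ?_) ?_
    · rw [Nat.coprime_two_right, Nat.odd_iff]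
      exact h1
    · have h3 : k ≡ 1 [MOD 3] := h2
      have := h3.gcd_eq
      rw [Nat.Coprime, this]
      simp
  have hkL : k₀.Coprime L := hcopL k₀ (by omega) (by omega)
  have hML : M₀.Coprime L := hcopL M₀ (by omega) (by omega)
  -- the classes
  have hexA : ∀ x : ℕ, ∃ c : ℕ, x < T → (∏ q ∈ sA x, q) * c ≡ k₀ [MOD L] ∧
      QV ∣ (∏ q ∈ sA x, q) * c + 1 ∧ c.Coprime (L * QV * QU) := by
    intro x
    by_cases hx : x < T
    · obtain ⟨c, hc⟩ := CRG_class L QV QU (∏ q ∈ sA x, q) k₀ hL0 hQV0 hVL.symm hUL.symm hQUV.symm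
        (Nat.Coprime.coprime_dvd_left (hAQ x hx) hUL) (Nat.Coprime.coprime_dvd_left (hAQ x hx) hQUV)
        hkL
      exact ⟨c, fun _ => hc⟩
    · exact ⟨0, fun h => absurd h hx⟩
  have hexC : ∀ y : ℕ, ∃ c : ℕ, y < T → (∏ q ∈ sC y, q) * c ≡ M₀ [MOD L] ∧
      QU ∣ (∏ q ∈ sC y, q) * c + 1 ∧ c.Coprime (L * QU * QV) := by
    intro y
    by_cases hy : y < T
    · obtain ⟨c, hc⟩ := CRG_class L QU QV (∏ q ∈ sC y, q) M₀ hL0 hQU0 hUL.symm hVL.symm hQUV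
        (Nat.Coprime.coprime_dvd_left (hCQ y hy) hVL)
        (Nat.Coprime.coprime_dvd_left (hCQ y hy) hQUV.symm) hML
      exact ⟨c, fun _ => hc⟩
    · exact ⟨0, fun h => absurd h hy⟩
  choose cA hcA using hexA
  choose cC hcC using hexC
  obtain ⟨m, hm⟩ : ∃ m, m = L * QV * QU := ⟨_, rfl⟩
  have hm' : L * QU * QV = m := by
    rw [hm]
    ring
  have hLm : L ∣ m := ⟨QV * QU, by rw [hm]; ring⟩
  have hUm : QU ∣ m := ⟨L * QV, by rw [hm]; ring⟩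
  have hVm : QV ∣ m := ⟨L * QU, by rw [hm]; ring⟩
  -- transfer from the class to its elements
  have htr : ∀ (A c P x W : ℕ), P % m = c % m → W ∣ m → A * c ≡ x [MOD L] → W ∣ A * c + 1 →
      A * P ≡ x [MOD L] ∧ W ∣ A * P + 1 := by
    intro A c P x W hP hW h1 h2
    have h3 : P ≡ c [MOD m] := hP
    refine ⟨(Nat.ModEq.mul_left A (h3.of_dvd hLm)).trans h1, ?_⟩
    have h4 : A * P + 1 ≡ A * c + 1 [MOD W] :=
      Nat.ModEq.add_right 1 (Nat.ModEq.mul_left A (h3.of_dvd hW))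
    exact (Nat.modEq_zero_iff_dvd).1 (h4.trans ((Nat.modEq_zero_iff_dvd).2 h2))
  have h24L : 24 ∣ L := by
    rw [hLdef]
    exact Nat.mul_dvd_mul h8e (dvd_refl 3)
  have hA24 : ∀ x, (∏ q ∈ sA x, q) % 24 = 1 := by
    intro x
    rw [CRG_prod (sA x) (fun p hp => (hAp x p hp).2), hAc]
    exact CRG_even x
  have hC24 : ∀ y < T, (∏ q ∈ sC y, q) % 24 = 7 := by
    intro y hy
    rw [CRG_prod (sC y) (fun p hp => (hCp y p hp).2)]
    have h1 := hCc y hy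
    obtain ⟨d, hd⟩ : ∃ d, #(sC y) = 2 * d + 1 := ⟨(#(sC y) - 1) / 2, by omega⟩
    rw [hd]
    exact CRG_odd d
  refine ⟨κ, T, sA, sC, m, cA, cC, hgT, ?_⟩
  constructor
  · exact htk
  · omega
  · exact fun x _ => hAp x
  · exact fun y _ => hCp y
  · exact fun x _ => hAc x
  · exact hCc
  · rw [hm]
    exact Nat.mul_pos (Nat.mul_pos hL0 hQV0) hQU0
  · intro x hx
    rw [hm]
    exact (hcA x hx).2.2
  · intro y hy
    rw [← hm']
    exact (hcC y hy).2.2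
  · intro x hx P hP
    obtain ⟨e1, e2⟩ := htr _ (cA x) P k₀ QV hP hVm (hcA x hx).1 (hcA x hx).2.1
    have e5 : ((∏ q ∈ sA x, q) * P) % 24 = k₀ % 24 := e1.of_dvd h24L
    have e6 : ((∏ q ∈ sA x, q) * P) % 24 = P % 24 := by
      rw [Nat.mul_mod, hA24 x, one_mul, Nat.mod_mod]
    refine ⟨by omega, by omega, ?_⟩
    intro y hy p hp
    refine Dvd.dvd.trans ?_ e2
    rw [hQV]
    exact Finset.dvd_prod_of_mem _ (hCV y hy hp)
  · intro y hy R hR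
    obtain ⟨e1, e2⟩ := htr _ (cC y) R M₀ QU hR hUm (hcC y hy).1 (hcC y hy).2.1
    have e5 : ((∏ q ∈ sC y, q) * R) % 24 = M₀ % 24 := e1.of_dvd h24L
    have e6 : ((∏ q ∈ sC y, q) * R) % 24 = (7 * R) % 24 := by
      rw [Nat.mul_mod, hC24 y hy, Nat.mul_mod 7 R]
    refine ⟨by omega, by omega, ?_⟩
    intro x hx p hp
    refine Dvd.dvd.trans ?_ e2
    rw [hQU]
    exact Finset.dvd_prod_of_mem _ (hAU x hx hp)
  · intro x hx y hy P R hP hR
    obtain ⟨e1, -⟩ := htr _ (cA x) P k₀ QV hP hVm (hcA x hx).1 (hcA x hx).2.1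
    obtain ⟨e3, -⟩ := htr _ (cC y) R M₀ QU hR hUm (hcC y hy).1 (hcC y hy).2.1
    rw [← hb]
    obtain ⟨k, hk⟩ : ∃ k, k = (∏ q ∈ sA x, q) * P := ⟨_, rfl⟩
    obtain ⟨M, hM⟩ : ∃ M, M = (∏ q ∈ sC y, q) * R := ⟨_, rfl⟩
    rw [← hk] at e1
    rw [← hM] at e3
    rw [← hk, ← hM]
    have heL : 2 ^ b ∣ L := by
      rw [hLdef]
      exact Dvd.intro _ rfl
    have f1 : k + 1 ≡ 0 [MOD 2 ^ b] := by
      have g1 : k + 1 ≡ k₀ + 1 [MOD 2 ^ b] := Nat.ModEq.add_right 1 (e1.of_dvd heL)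
      exact g1.trans ((Nat.modEq_zero_iff_dvd).2 hk3)
    have f2 : M + 24 * a ≡ 1 [MOD 2 ^ b] := by
      have g1 : M + 24 * a ≡ M₀ + 24 * a [MOD 2 ^ b] :=
        Nat.ModEq.add_right _ (e3.of_dvd heL)
      exact g1.trans hM3
    have f3 : k * M + 1 ≡ k * M + (M + 24 * a) [MOD 2 ^ b] := Nat.ModEq.add_left _ f2.symm
    have f4 : k * M + (M + 24 * a) = (k + 1) * M + 24 * a := by ring
    rw [f4] at f3
    have f5 : (k + 1) * M + 24 * a ≡ 0 * M + 24 * a [MOD 2 ^ b] :=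
      Nat.ModEq.add_right _ (Nat.ModEq.mul_right _ f1)
    have f6 := f3.trans f5
    rw [zero_mul, zero_add] at f6
    exact f6

end Pool.Agent.TPE
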